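import Pool.Agent.Q60.RG.Defs

/-!
# MP_0f76a4_ag: the deviations from weight-monodromy on the powers of a rigid-analytic variety

Let `X` be a smooth proper rigid-analytic variety over a local field `K` whose residue field has `q`
elements, in a class of such varieties which is closed under products (for instance the smooth qcqs
rigid-analytic varieties with an admissible formal model with projective special fibre). For a
Frobenius eigenvalue on the graded piece `gr_s` of the monodromy filtration of `H^m(X^n)` the defect
is the difference of its weight and the predicted weight `m + s`.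

If weight-monodromy is true for `X`, all the defects on all powers are zero. If it is false, the
defects on `X^n`, divided by `√n`, are asymptotically normally distributed with mean `0` and variance
`(B - A) / b > 0`, where `A = 2 ∑ k rank (N ^ k)`, `B = ∑ (w - m)²`, `b = ∑ dim H^m(X)`. So the
smallest violation of weight-monodromy on `X` spreads over the cohomology of the powers: the
proportion of the eigenvalues with defect at most `t √n` is at most `t` times a constant. Only
Poincaré duality and the Künneth formula are used.
-/

set_option autoImplicit false

open Module Filter Topology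

universe u v w

namespace Pool.Agent.Results.MP_0f76a4_ag.NormalDefects

open Pool.Agent.Y143 Pool.Agent.Y163.MW Pool.Agent.Q60.PL Pool.Agent.Q60.RG

/-- **The defects are zero or asymptotically normally distributed.** -/
theorem result {Ω : Type w} [Field Ω] [CharZero Ω] [IsAlgClosed Ω]
    {T : RigTheory.{u, v, w} Ω} {q : ℕ} (hq : 1 < q) (hT : T.IsRigid q) (X : T.Var)
    (M : ∀ n, ℤ → Submodule Ω (T.H (T.pow X n)).V)
    (hM : ∀ n, IsMonodromyFiltrationOn ⊤ (T.H (T.pow X n)).N (M n))
    (b A B : ℝ) (hb : b = finrank Ω (T.H X).V)
    (hA : A = (T.H X).totRankMoment) (hB : B = (T.H X).totWeightMoment q) :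
    ((∀ m, (T.H X).MWPure q m) → ∀ n, (nearDefects (T.H (T.pow X n)) q (M n) 0 : ℝ) =
      b ^ (n + 1)) ∧
    (¬ (∀ m, (T.H X).MWPure q m) → A < B ∧ ∀ t : ℝ, 0 ≤ t →
      Tendsto (fun n : ℕ => (nearDefects (T.H (T.pow X n)) q (M n)
        (t * √((n + 1 : ℕ) : ℝ)) : ℝ) / b ^ (n + 1)) atTop
        (𝓝 (normalWindow (t / √((B - A) / b))))) :=
  defect_laws hq (hT.powers X) M hM b A B hb hA hB

end Pool.Agent.Results.MP_0f76a4_ag.NormalDefects
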