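import Pool.Agent.Q60.RG.Defs

/-!
# MP_0f76a4_ag: monodromy and weights on the powers of a rigid-analytic variety

Let `X` be a smooth proper rigid-analytic variety over a local field `K` whose residue field has `q`
elements, in a class of such varieties which is closed under products (for instance the smooth qcqs
rigid-analytic varieties with an admissible formal model with projective special fibre). Let `b` be
the sum of its `ℓ`-adic Betti numbers, `A = 2 ∑ k rank (N ^ k)` and `B = ∑ (w - m)²` over the
Frobenius eigenvalues of weight `w` on the `H^m(X_C)`. Only Poincaré duality and the Künneth formula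
are used, no hard Lefschetz theorem (which is not available for rigid-analytic varieties).

* `A ≤ B`, with equality if and only if the weight-monodromy conjecture is true for `X`.
* If `N` is not zero, the number of the Jordan blocks of size greater than `t √n` of the monodromy
  operator of `X^n` is asymptotic to `b^n √(2 b / (π A n)) exp (- t² b / (2 A))`.
* If `N` is not zero, the numbers `(w - m) / √n` for `X^n` are asymptotically normally distributed
  with variance `B / b`.
* If `N` is not zero, the dimension of the inertia invariants (of the kernel of `N`) of the cohomology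
  of `X^n`, divided by the dimension predicted by the weights, tends to `√(B / A)`.
* If the conjecture is true for `X`, then as many Frobenius eigenvalues on `H^m` have weight `m + c`
  as have weight `m - c`, for all `m` and `c`.
-/

set_option autoImplicit false

open Module Filter Topology

universe u v w

namespace Pool.Agent.Results.MP_0f76a4_ag.RigidPowers

open Pool.Agent.Y143 Pool.Agent.Y163.MW Pool.Agent.Q60.PL Pool.Agent.Q60.RG

/-- **Monodromy and weights on the powers of a rigid-analytic variety.** -/
theorem result {Ω : Type w} [Field Ω] [CharZero Ω] [IsAlgClosed Ω]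
    {T : RigTheory.{u, v, w} Ω} {q : ℕ} (hq : 1 < q) (hT : T.IsRigid q) (X : T.Var)
    (b A B : ℝ) (hb : b = finrank Ω (T.H X).V)
    (hA : A = (T.H X).totRankMoment) (hB : B = (T.H X).totWeightMoment q) :
    A ≤ B ∧ (A = B ↔ ∀ m, (T.H X).MWPure q m) ∧
    ((T.H X).N ≠ 0 →
      (∀ t : ℝ, 0 ≤ t → Tendsto (fun n : ℕ => √((n + 1 : ℕ) : ℝ) *
        ((numBlocks (T.H (T.pow X n)).N ⌊t * √((n + 1 : ℕ) : ℝ)⌋₊ : ℝ) / b ^ (n + 1))) atTop
        (𝓝 (√(2 * b / (Real.pi * A)) * Real.exp (-(t ^ 2 * b / (2 * A)))))) ∧
      (∀ t : ℝ, 0 ≤ t → Tendsto (fun n : ℕ =>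
        (nearWeights (T.H (T.pow X n)) q (t * √((n + 1 : ℕ) : ℝ)) : ℝ) / b ^ (n + 1)) atTop
        (𝓝 (normalWindow (t / √(B / b))))) ∧
      Tendsto (fun n : ℕ => ((T.H (T.pow X n)).inv : ℝ) / ((T.H (T.pow X n)).pred q : ℝ)) atTop
        (𝓝 √(B / A))) ∧
    ((∀ m, (T.H X).MWPure q m) → ∀ m c, finrank Ω ((T.H X).exc q m c) =
      finrank Ω ((T.H X).exc q m (-c))) :=
  powers_laws hq (hT.powers X) b A B hb hA hB

end Pool.Agent.Results.MP_0f76a4_ag.RigidPowers
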