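import Pool.Agent.Q60.RG.Defs

/-!
# MP_0f76a4_ag: weight-monodromy for a rigid-analytic variety `X` and the inertia invariants of `X × X`

Let `X` be a smooth proper rigid-analytic variety over a local field `K` whose residue field has `q`
elements, in a class of such varieties which is closed under products (for instance the smooth qcqs
rigid-analytic varieties with an admissible formal model with projective special fibre).

* The dimension of the kernel of `N` on `H^*(X × X)` is at least the number of the Frobenius
  eigenvalues of weight `m` or `m + 1` on the `H^m(X × X)`.
* Equality holds if and only if weight-monodromy is true for all the `H^m(X)`; in particular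
  weight-monodromy for `X` is a statement about the dimension of one space, the kernel of `N` on
  `H^*(X × X)`.

Neither duality nor the hard Lefschetz theorem are used.
-/

set_option autoImplicit false

open Module Filter Topology

universe u v w

namespace Pool.Agent.Results.MP_0f76a4_ag.SquareCriterion

open Pool.Agent.Y143 Pool.Agent.Y163.MW Pool.Agent.Q60.PL Pool.Agent.Q60.RG

/-- **The criterion on `X × X`.** -/
theorem result {Ω : Type w} [Field Ω] [CharZero Ω] [IsAlgClosed Ω]
    {T : RigTheory.{u, v, w} Ω} {q : ℕ} (hq : 1 < q) (hT : T.IsRigid q) (X : T.Var) :
    (T.H (T.prod X X)).pred q ≤ (T.H (T.prod X X)).inv ∧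
    ((T.H (T.prod X X)).inv = (T.H (T.prod X X)).pred q ↔ ∀ m, (T.H X).MWPure q m) := by
  obtain ⟨κ, hκ⟩ := hT.kunneth X X
  exact w_square hq (hT.coh X) (hT.coh _) hκ

end Pool.Agent.Results.MP_0f76a4_ag.SquareCriterion
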