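import Pool.Agent.Q60.TV.Tate
import Pool.Agent.Q60.RG.Defs

/-!
# MP_0f76a4_ag: the inertia invariants of the products of `X` with test varieties

Let `X` be a smooth proper rigid-analytic variety over `K` as in the problem. For `r ≥ 0` compare the
dimension `kdim X r` of the kernel of `N ^ r` on the whole cohomology of `X` with the number
`wdim X r` of the Frobenius eigenvalues on the `H^m(X)` whose weight is in `(m - r, m + r]`.

* `wdim X r ≤ kdim X r`, and the weight-monodromy conjecture holds for all the `H^m(X)` if and only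
  if there is equality for all `r`.
* Let `Y` be a variety of the class for which the weight-monodromy conjecture holds. Then the
  dimension of the kernel of `N` on `H^*(X × Y)`, minus the number of the Frobenius eigenvalues of
  weight `m` or `m + 1` on the `H^m(X × Y)`, is the sum over all Jordan blocks of `N` on `H^*(Y)` of
  `kdim X r - wdim X r`, where `r` is the size of the block. If every size of a Jordan block of `N` on
  `H^*(X)` is also the size of a Jordan block on `H^*(Y)`, then the conjecture holds for `X` if and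
  only if this single difference is zero.
* For instance, if `E` is a Tate curve and `N ^ (n + 2) = 0` on `H^*(X)`, one may take `Y = E^(n+1)`.
-/

set_option autoImplicit false

open Module

universe u v w

namespace Pool.Agent.Results.MP_0f76a4_ag.TestVarieties

open Pool.Agent.Y143 Pool.Agent.Y163.MW Pool.Agent.Q60.RG Pool.Agent.Q60.TV

/-- **Test varieties for the weight-monodromy conjecture.** -/
theorem result {Ω : Type w} [Field Ω] [CharZero Ω] [IsAlgClosed Ω]
    {T : RigTheory.{u, v, w} Ω} {q : ℕ} (hq : 1 < q) (hT : T.IsRigid q) (X : T.Var) :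
    ((∀ r, wdim (T.H X) q r ≤ kdim (T.H X) r) ∧
      ((∀ m, (T.H X).MWPure q m) ↔ ∀ r, kdim (T.H X) r = wdim (T.H X) q r)) ∧
    (∀ Y : T.Var, (∀ m, (T.H Y).MWPure q m) →
      ((T.H (T.prod X Y)).inv : ℤ) - (T.H (T.prod X Y)).pred q =
        ∑ᶠ r : ℕ, blocks (T.H Y) r * ((kdim (T.H X) (r + 1) : ℤ) - wdim (T.H X) q (r + 1)) ∧
      ((∀ r, blocks (T.H X) r ≠ 0 → blocks (T.H Y) r ≠ 0) →
        ((∀ m, (T.H X).MWPure q m) ↔ (T.H (T.prod X Y)).inv = (T.H (T.prod X Y)).pred q))) ∧
    (∀ (E : T.Var) (n : ℕ), IsTateCurve (T.H E) q → (T.H X).N ^ (n + 2) = 0 →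
      ((∀ m, (T.H X).MWPure q m) ↔
        (T.H (T.prod X (T.pow E n))).inv = (T.H (T.prod X (T.pow E n))).pred q)) := by
  obtain ⟨B, hB⟩ := hT.dual X
  have hsym := w_finrank_tot_neg hq (hT.coh X) hB
  refine ⟨⟨wdim_le hq (hT.coh X), pure_iff hq (hT.coh X) hsym⟩, fun Y hY => ?_,
    fun E n hE hN => ?_⟩
  · obtain ⟨κ, hκ⟩ := hT.kunneth X Y
    exact ⟨defect_eq hq (hT.coh X) (hT.coh Y) (hT.coh _) hY hκ,
      fun hb => test_iff hq (hT.coh X) (hT.coh Y) (hT.coh _) hY hsym hb hκ⟩
  · obtain ⟨κ, hκ⟩ := hT.kunneth X (T.pow E n)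
    exact tate_test hq (A := fun n => T.H (T.pow E n)) (fun n => hT.coh _) hE
      (fun n => hT.kunneth E (T.pow E n)) (hT.coh X) hsym n hN (hT.coh _) hκ

end Pool.Agent.Results.MP_0f76a4_ag.TestVarieties
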